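import Mathlib
import Pool.Agent.MP_1fed52_co.Defs
import Pool.Agent.MP_1fed52_co.Bij

set_option autoImplicit false

namespace Pool.Agent.Results.MP_1fed52_co.MajNE

open Pool.Agent.MP_1fed52_co Polynomial

open Classical in
/-- `NE_{s,2}(123)[q] = q^(s^2) c_s(q)` for every `s ≥ 1`, as polynomials in `ℤ[X]`. -/
theorem result (s : ℕ) (hs : 1 ≤ s) :
    ∑ π : Equiv.Perm (Fin (2 * s)) with IsLinExt 2 (oneLine π) ∧ Avoids123 (oneLine π),
      (X : ℤ[X]) ^ maj (oneLine π) =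
    X ^ (s ^ 2) *
      ∑ w ∈ (Fintype.piFinset fun _ : Fin (2 * s) => ({1, 2} : Finset ℕ)) with IsCatalanWord s w,
        (X : ℤ[X]) ^ maj w :=
  poly_identity s hs

end Pool.Agent.Results.MP_1fed52_co.MajNE
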